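import Pool.Agent.L7h26.TN.Stm

/-!
# Project TN, part COP: the factors are coprime modulo `p`
-/

set_option autoImplicit false

namespace Pool.Agent.L7h53.TN

open Polynomial
open Pool.Agent.L7h26.TN

theorem red_surj (p : ℕ) : Function.Surjective (red p) :=
  Polynomial.map_surjective _ ZMod.intCast_surjective

theorem red_zero {p : ℕ} {w : ℤ[X]} (h : red p w = 0) : C (p : ℤ) ∣ w := by
  rw [Polynomial.C_dvd_iff_dvd_coeff]
  intro i
  have h1 : (red p w).coeff i = 0 := by rw [h]; simp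
  rw [red, Polynomial.coeff_map] at h1
  exact (CharP.intCast_eq_zero_iff (ZMod p) p (w.coeff i)).1 h1

/-- the ideal `(p, π)` -/
noncomputable def I1 (p : ℕ) (π : ℤ[X]) : Ideal ℤ[X] := Ideal.span {C (p : ℤ), π}

/-- the ideal `(p, π) ^ 2` -/
noncomputable def J (p : ℕ) (π : ℤ[X]) : Ideal ℤ[X] :=
  Ideal.span {C (p : ℤ) ^ 2, C (p : ℤ) * π, π ^ 2}

theorem mem_I1 {p : ℕ} {π w : ℤ[X]} (h : red p π ∣ red p w) : w ∈ I1 p π := by
  obtain ⟨a', ha'⟩ := h
  obtain ⟨a, rfl⟩ := red_surj p a'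
  have h1 : red p (w - π * a) = 0 := by
    unfold red at ha' ⊢
    rw [Polynomial.map_sub, Polynomial.map_mul, ha', sub_self]
  obtain ⟨b, hb⟩ := red_zero h1
  rw [I1, Ideal.mem_span_pair]
  exact ⟨b, a, by linear_combination -hb⟩

theorem mul_mem {p : ℕ} {π w v : ℤ[X]} (hw : w ∈ I1 p π) (hv : v ∈ I1 p π) :
    w * v ∈ J p π := by
  rw [I1, Ideal.mem_span_pair] at hw hv
  obtain ⟨a, b, rfl⟩ := hw
  obtain ⟨c, d, rfl⟩ := hv
  rw [J]
  have e : (a * C (p : ℤ) + b * π) * (c * C (p : ℤ) + d * π) =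
      (a * c) * (C (p : ℤ) ^ 2) + ((a * d + b * c) * (C (p : ℤ) * π) + (b * d) * (π ^ 2)) := by
    ring
  rw [e]
  refine Ideal.add_mem _ (Ideal.mul_mem_left _ _ (Ideal.subset_span (by simp)))
    (Ideal.add_mem _ (Ideal.mul_mem_left _ _ (Ideal.subset_span (by simp)))
      (Ideal.mul_mem_left _ _ (Ideal.subset_span (by simp))))

theorem p_mem (p : ℕ) (π : ℤ[X]) : C (p : ℤ) ∈ I1 p π := Ideal.subset_span (by simp)

theorem pow_mem {p m : ℕ} {π : ℤ[X]} (h : (X ^ m - 1 : ℤ[X]) ∈ I1 p π) :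
    (X ^ (p * m) - 1 : ℤ[X]) ∈ J p π := by
  have h1 : (X ^ m - 1 : ℤ[X]) ∣ (∑ i ∈ Finset.range p, (X ^ m : ℤ[X]) ^ i) - C (p : ℤ) := by
    have e : (∑ i ∈ Finset.range p, (X ^ m : ℤ[X]) ^ i) - C (p : ℤ) =
        ∑ i ∈ Finset.range p, ((X ^ m : ℤ[X]) ^ i - 1 ^ i) := by
      rw [Finset.sum_sub_distrib]
      simp
    rw [e]
    exact Finset.dvd_sum fun i _ => sub_dvd_pow_sub_pow _ _ _
  obtain ⟨u, hu⟩ := h1
  have e : (X ^ (p * m) - 1 : ℤ[X]) =
      C (p : ℤ) * (X ^ m - 1) + u * ((X ^ m - 1) * (X ^ m - 1)) := by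
    have h2 := mul_geom_sum (X ^ m : ℤ[X]) p
    rw [← pow_mul, mul_comm m p] at h2
    linear_combination -h2 + (X ^ m - 1 : ℤ[X]) * hu
  rw [e]
  exact Ideal.add_mem _ (mul_mem (p_mem p π) h) (Ideal.mul_mem_left _ _ (mul_mem h h))

theorem of_PW (h1 : S_PW) {p : ℕ} (hp : p.Prime) {π w : ℤ[X]} (hπ : red p π ≠ 0)
    (h : C (p : ℤ) * w ∈ J p π) : red p π ∣ red p w := by
  rw [J, Ideal.span, Submodule.mem_span_triple] at h
  obtain ⟨a, b, c, h⟩ := h
  refine h1 p hp π w a b c hπ ?_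
  rw [← h]
  simp only [smul_eq_mul]
  ring

theorem redS (p n : ℕ) : red p (S n) =
    C ((n : ZMod p) - 1) * (X ^ (n + 1) - 1) - C ((n : ZMod p) + 1) * (X ^ n - X) := by
  simp [red, S]

theorem sqf_lin {p : ℕ} [Fact p.Prime] (a : ZMod p) : Squarefree (X - C a : (ZMod p)[X]) :=
  (Polynomial.irreducible_X_sub_C a).squarefree

theorem shape (p n m : ℕ) [Fact p.Prime] (h2 : (2 : ZMod p) ≠ 0)
    (hN : n + 1 = p * m ∨ n = p * m ∨ n = p * m + 1) :
    ∃ (c : ZMod p) (q : (ZMod p)[X]), c ≠ 0 ∧ Squarefree q ∧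
      red p (S n) = C c * q * (X ^ m - 1) ^ p := by
  have : CharP (ZMod p)[X] p := inferInstance
  have e0 : (X ^ m - 1 : (ZMod p)[X]) ^ p = X ^ (p * m) - 1 := by
    rw [sub_pow_char, one_pow, ← pow_mul, mul_comm m p]
  rw [e0, redS]
  rcases hN with h | h | h
  · refine ⟨-2, 1, neg_ne_zero.2 h2, squarefree_one, ?_⟩
    have e1 : (n : ZMod p) = -1 := by
      have : ((n + 1 : ℕ) : ZMod p) = 0 := by rw [h]; simp
      push_cast at this
      linear_combination this
    rw [h, e1]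
    have e2 : ((-1 : ZMod p) + 1) = 0 := by ring
    have e3 : ((-1 : ZMod p) - 1) = -2 := by ring
    rw [e2, e3, C_0]
    ring
  · refine ⟨-1, X - C (-1), neg_ne_zero.2 one_ne_zero, sqf_lin _, ?_⟩
    have e1 : (n : ZMod p) = 0 := by rw [h]; simp
    rw [e1, ← h]
    simp only [zero_sub, zero_add, C_neg, C_1, pow_succ]
    ring
  · refine ⟨-2, X - C 0, neg_ne_zero.2 h2, sqf_lin _, ?_⟩
    have e1 : (n : ZMod p) = 1 := by rw [h]; simp
    rw [e1, h]
    have e2 : ((1 : ZMod p) - 1) = 0 := by ring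
    have e3 : ((1 : ZMod p) + 1) = 2 := by ring
    rw [e2, e3, C_0, C_neg, pow_succ]
    ring

theorem step1 {p n m : ℕ} {π : ℤ[X]} (h : (X ^ (p * m) - 1 : ℤ[X]) ∈ J p π) (hS : S n ∈ J p π)
    (hN : n + 1 = p * m) : C (p : ℤ) * (C (m : ℤ) * ((X - 1) * (X + 1))) ∈ J p π := by
  have e : C (p : ℤ) * (C (m : ℤ) * ((X - 1) * (X + 1))) =
      X * S n - (C ((n : ℤ) - 1) * X - C ((n : ℤ) + 1)) * (X ^ (p * m) - 1) := by
    have e1 : C (p : ℤ) * C (m : ℤ) = C ((n : ℤ) + 1) := by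
      rw [← C_mul]
      congr 1
      exact_mod_cast hN.symm
    rw [S, ← hN]
    rw [pow_succ]
    linear_combination ((X - 1) * (X + 1)) * e1
  rw [e]
  exact Ideal.sub_mem _ (Ideal.mul_mem_left _ _ hS) (Ideal.mul_mem_left _ _ h)

theorem step0 {p n m : ℕ} {π : ℤ[X]} (h : (X ^ (p * m) - 1 : ℤ[X]) ∈ J p π) (hS : S n ∈ J p π)
    (hN : n = p * m) : C (p : ℤ) * (C (m : ℤ) * (C 2 * (X - 1))) ∈ J p π := by
  have e : C (p : ℤ) * (C (m : ℤ) * (C 2 * (X - 1))) =
      S n - (C ((n : ℤ) - 1) * X - C ((n : ℤ) + 1)) * (X ^ (p * m) - 1) := by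
    have e1 : C (p : ℤ) * C (m : ℤ) = C (n : ℤ) := by
      rw [← C_mul]
      congr 1
      exact_mod_cast hN.symm
    have e2 : (C 2 : ℤ[X]) = 2 := rfl
    rw [S, ← hN, pow_succ, C_sub, C_add, C_1, e2]
    linear_combination (2 * (X - 1)) * e1
  rw [e]
  exact Ideal.sub_mem _ hS (Ideal.mul_mem_left _ _ h)

theorem stepm {p n m : ℕ} {π : ℤ[X]} (h : (X ^ (p * m) - 1 : ℤ[X]) ∈ J p π) (hS : S n ∈ J p π)
    (hN : n = p * m + 1) : C (p : ℤ) * (C (m : ℤ) * ((X - 1) * (X + 1))) ∈ J p π := by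
  have e : C (p : ℤ) * (C (m : ℤ) * ((X - 1) * (X + 1))) =
      S n - (C ((n : ℤ) - 1) * X ^ 2 - C ((n : ℤ) + 1) * X) * (X ^ (p * m) - 1) := by
    have e1 : C (p : ℤ) * C (m : ℤ) = C ((n : ℤ) - 1) := by
      rw [← C_mul]
      congr 1
      rw [hN]
      push_cast
      ring
    have e3 : (X ^ (n + 1) : ℤ[X]) = X ^ (p * m) * X ^ 2 := by rw [hN, ← pow_add]
    have e4 : (X ^ n : ℤ[X]) = X ^ (p * m) * X := by rw [hN, ← pow_succ]
    rw [S, e3, e4]
    linear_combination ((X - 1) * (X + 1)) * e1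
  rw [e]
  exact Ideal.sub_mem _ hS (Ideal.mul_mem_left _ _ h)

theorem unitC {p : ℕ} [Fact p.Prime] {ρ : (ZMod p)[X]} (hρ : Irreducible ρ) {c : ZMod p}
    (hc : c ≠ 0) : ¬ ρ ∣ C c := fun h =>
  hρ.not_isUnit (isUnit_of_dvd_unit h (Polynomial.isUnit_C.2 (isUnit_iff_ne_zero.2 hc)))

theorem notPlus {p m : ℕ} [Fact p.Prime] {ρ : (ZMod p)[X]} (hρ : Irreducible ρ)
    (h2 : (2 : ZMod p) ≠ 0) (hm : Odd m) (h : ρ ∣ X ^ m - 1) : ¬ ρ ∣ X + 1 := by
  intro h3
  have h4 : ρ ∣ X ^ m + 1 := by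
    have := Odd.add_dvd_pow_add_pow (X : (ZMod p)[X]) 1 hm
    rw [one_pow] at this
    exact h3.trans this
  have h5 : ρ ∣ C 2 := by
    have e : (C 2 : (ZMod p)[X]) = (X ^ m + 1) - (X ^ m - 1) := by
      have e2 : (C 2 : (ZMod p)[X]) = 2 := rfl
      rw [e2]
      ring
    rw [e]
    exact dvd_sub h4 h
  exact unitC hρ h2 h5

theorem evalOne {p : ℕ} [Fact p.Prime] {w : ℤ[X]} (h : (X - 1 : (ZMod p)[X]) ∣ red p w) :
    (p : ℤ) ∣ w.eval 1 := by
  have h1 : (X - C 1 : (ZMod p)[X]) ∣ red p w := by rwa [C_1]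
  rw [Polynomial.dvd_iff_isRoot, Polynomial.IsRoot, red, Polynomial.eval_one_map] at h1
  exact (CharP.intCast_eq_zero_iff (ZMod p) p _).1 h1

theorem arith {p n m : ℕ} (hp : p.Prime) (hp2 : p ≠ 2) (hm : ¬ p ∣ m)
    (hN : n + 1 = p * m ∨ n = p * m ∨ n = p * m + 1)
    (h : (p : ℤ) * p ∣ ((n : ℤ) + 1) * n * ((n : ℤ) - 1)) : False := by
  have hpZ : Prime (p : ℤ) := Nat.prime_iff_prime_int.1 hp
  have hmZ : ¬ (p : ℤ) ∣ (m : ℤ) := fun h => hm (by exact_mod_cast h)
  have key : ∀ t : ℤ, (p : ℤ) * p ∣ (p : ℤ) * (m * t) → (p : ℤ) ∣ t := by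
    intro t ht
    have h1 := (mul_dvd_mul_iff_left hpZ.ne_zero).1 ht
    exact (hpZ.dvd_or_dvd h1).resolve_left hmZ
  have h1 : ¬ (p : ℤ) ∣ 1 := fun h => hpZ.not_isUnit (isUnit_of_dvd_one h)
  have h2 : ¬ (p : ℤ) ∣ 2 := by
    intro h
    have h3 : p ∣ 2 := by exact_mod_cast h
    exact hp2 ((Nat.prime_dvd_prime_iff_eq hp Nat.prime_two).1 h3)
  rcases hN with hN | hN | hN
  · have e : (n : ℤ) = p * m - 1 := by
      have : ((n + 1 : ℕ) : ℤ) = ((p * m : ℕ) : ℤ) := by rw [hN]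
      push_cast at this
      linarith
    have h3 : (p : ℤ) ∣ (n : ℤ) * ((n : ℤ) - 1) := by
      apply key
      convert h using 1
      rw [e]
      ring
    rcases hpZ.dvd_or_dvd h3 with h4 | h4
    · apply h1
      have : (1 : ℤ) = p * m - n := by rw [e]; ring
      rw [this]
      exact dvd_sub (dvd_mul_right _ _) h4
    · apply h2
      have : (2 : ℤ) = p * m - (n - 1) := by rw [e]; ring
      rw [this]
      exact dvd_sub (dvd_mul_right _ _) h4
  · have e : (n : ℤ) = p * m := by exact_mod_cast hN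
    have h3 : (p : ℤ) ∣ ((n : ℤ) + 1) * ((n : ℤ) - 1) := by
      apply key
      convert h using 1
      rw [e]
      ring
    rcases hpZ.dvd_or_dvd h3 with h4 | h4
    · apply h1
      have : (1 : ℤ) = (n + 1) - p * m := by rw [e]; ring
      rw [this]
      exact dvd_sub h4 (dvd_mul_right _ _)
    · apply h1
      have : (1 : ℤ) = p * m - (n - 1) := by rw [e]; ring
      rw [this]
      exact dvd_sub (dvd_mul_right _ _) h4
  · have e : (n : ℤ) = p * m + 1 := by exact_mod_cast hN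
    have h3 : (p : ℤ) ∣ ((n : ℤ) + 1) * (n : ℤ) := by
      apply key
      convert h using 1
      rw [e]
      ring
    rcases hpZ.dvd_or_dvd h3 with h4 | h4
    · apply h2
      have : (2 : ℤ) = (n + 1) - p * m := by rw [e]; ring
      rw [this]
      exact dvd_sub h4 (dvd_mul_right _ _)
    · apply h1
      have : (1 : ℤ) = n - p * m := by rw [e]; ring
      rw [this]
      exact dvd_sub h4 (dvd_mul_right _ _)

theorem s_COP (h1 : S_PW) (h2 : S_ONE) : S_COP := by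
  intro p n hp hp2 hev hn hEx g h hgh
  have : Fact p.Prime := ⟨hp⟩
  obtain ⟨m, hN, hm⟩ : ∃ m : ℕ, (n + 1 = p * m ∨ n = p * m ∨ n = p * m + 1) ∧ ¬ p ∣ m := by
    rcases hEx with ⟨⟨m, hm⟩, h2⟩ | ⟨⟨m, hm⟩, h2⟩ | ⟨⟨m, hm⟩, h2⟩
    · refine ⟨m, Or.inl hm, fun hd => h2 ?_⟩
      rw [hm, pow_two]
      exact Nat.mul_dvd_mul_left p hd
    · refine ⟨m, Or.inr (Or.inl hm), fun hd => h2 ?_⟩
      rw [hm, pow_two]
      exact Nat.mul_dvd_mul_left p hd
    · refine ⟨m, Or.inr (Or.inr (by omega)), fun hd => h2 ?_⟩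
      rw [hm, pow_two]
      exact Nat.mul_dvd_mul_left p hd
  have h2p : (2 : ZMod p) ≠ 0 := by
    intro h0
    have h3 : ((2 : ℕ) : ZMod p) = 0 := by exact_mod_cast h0
    rw [ZMod.natCast_eq_zero_iff] at h3
    exact hp2 ((Nat.prime_dvd_prime_iff_eq hp Nat.prime_two).1 h3)
  have hmp : (m : ZMod p) ≠ 0 := by
    intro h0
    rw [ZMod.natCast_eq_zero_iff] at h0
    exact hm h0
  have hm0 : m ≠ 0 := fun h0 => hm (h0 ▸ dvd_zero p)
  obtain ⟨c, q, hc, hq, hred⟩ := shape p n m h2p hN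
  have hfac : (X - 1 : (ZMod p)[X]) ^ 3 * (red p g * red p h) = C c * q * (X ^ m - 1) ^ p := by
    rw [← hred, ← hgh]
    simp [red]
  have hq0 : q ≠ 0 := hq.ne_zero
  have hXm0 : (X ^ m - 1 : (ZMod p)[X]) ≠ 0 := by
    have := Polynomial.X_pow_sub_C_ne_zero (Nat.pos_of_ne_zero hm0) (1 : ZMod p)
    rwa [C_1] at this
  have hrhs : C c * q * (X ^ m - 1 : (ZMod p)[X]) ^ p ≠ 0 :=
    mul_ne_zero (mul_ne_zero (by rwa [Ne, Polynomial.C_eq_zero]) hq0) (pow_ne_zero _ hXm0)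
  apply isCoprime_of_irreducible_dvd
  · rintro ⟨ha, -⟩
    rw [ha, zero_mul, mul_zero] at hfac
    exact hrhs hfac.symm
  · intro ρ hρ hρg hρh
    obtain ⟨π, rfl⟩ := red_surj p ρ
    have hg : g ∈ I1 p π := mem_I1 hρg
    have hh : h ∈ I1 p π := mem_I1 hρh
    have hS : S n ∈ J p π := by
      rw [← hgh]
      exact Ideal.mul_mem_left _ _ (mul_mem hg hh)
    have hρ0 : red p π ≠ 0 := hρ.ne_zero
    by_cases hd : red p π ∣ X ^ m - 1
    · have hXm : (X ^ m - 1 : ℤ[X]) ∈ I1 p π := mem_I1 (by simpa [red] using hd)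
      have hXN := pow_mem hXm
      have hX1 : red p π ∣ X - 1 := by
        have hprime : Prime (red p π) := hρ.prime
        have key1 : C (p : ℤ) * (C (m : ℤ) * ((X - 1) * (X + 1))) ∈ J p π → Odd m →
            red p π ∣ X - 1 := by
          intro hJ hodd
          have h3 := of_PW h1 hp hρ0 hJ
          have h4 : red p π ∣ C (m : ZMod p) * ((X - 1) * (X + 1)) := by
            simpa [red] using h3
          rcases hprime.dvd_or_dvd h4 with h5 | h5
          · exact absurd h5 (unitC hρ hmp)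
          · rcases hprime.dvd_or_dvd h5 with h6 | h6
            · exact h6
            · exact absurd h6 (notPlus hρ h2p hodd hd)
        have hodd1 : n + 1 = p * m → Odd m := by
          intro h3
          have : Odd (p * m) := by
            rw [← h3]
            exact hev.add_one
          exact (Nat.odd_mul.1 this).2
        have hoddm : n = p * m + 1 → Odd m := by
          intro h3
          have : Odd (p * m) := by
            rcases Nat.even_or_odd (p * m) with h4 | h4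
            · exfalso
              have h5 := h4.add_one
              rw [← h3] at h5
              exact (Nat.not_odd_iff_even.2 hev) h5
            · exact h4
          exact (Nat.odd_mul.1 this).2
        rcases hN with h3 | h3 | h3
        · exact key1 (step1 hXN hS h3) (hodd1 h3)
        · have h4 := of_PW h1 hp hρ0 (step0 hXN hS h3)
          have h5 : red p π ∣ C (m : ZMod p) * (C 2 * (X - 1)) := by
            have e : red p (C (m : ℤ) * (C 2 * (X - 1))) = C (m : ZMod p) * (C 2 * (X - 1)) := by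
              rw [red, Polynomial.map_mul, Polynomial.map_mul, Polynomial.map_C,
                Polynomial.map_C, Polynomial.map_sub, Polynomial.map_X, Polynomial.map_one,
                map_natCast, map_ofNat]
            rwa [e] at h4
          rcases hprime.dvd_or_dvd h5 with h6 | h6
          · exact absurd h6 (unitC hρ hmp)
          · rcases hprime.dvd_or_dvd h6 with h7 | h7
            · exact absurd h7 (unitC hρ h2p)
            · exact h7
        · exact key1 (stepm hXN hS h3) (hoddm h3)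
      have hirr : Irreducible (X - 1 : (ZMod p)[X]) := by
        have := Polynomial.irreducible_X_sub_C (1 : ZMod p)
        rwa [C_1] at this
      have hback : (X - 1 : (ZMod p)[X]) ∣ red p π := hρ.dvd_symm hirr hX1
      have hg1 := evalOne (hback.trans hρg)
      have hh1 := evalOne (hback.trans hρh)
      have hone := h2 n (g * h) (by omega) hgh
      refine absurd ?_ (fun hx => arith hp hp2 hm hN hx)
      rw [← hone, Polynomial.eval_mul]
      exact Dvd.dvd.mul_left (mul_dvd_mul hg1 hh1) _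
    · have hsq : red p π * red p π ∣ C c * q * (X ^ m - 1) ^ p := by
        rw [← hfac]
        exact Dvd.dvd.mul_left (mul_dvd_mul hρg hρh) _
      have hc1 : IsCoprime (red p π) (X ^ m - 1 : (ZMod p)[X]) :=
        (hρ.coprime_iff_not_dvd).2 hd
      have hcop : IsCoprime (red p π * red p π) ((X ^ m - 1 : (ZMod p)[X]) ^ p) :=
        IsCoprime.pow_right (IsCoprime.mul_left hc1 hc1)
      have h3 : red p π * red p π ∣ C c * q := hcop.dvd_of_dvd_mul_right hsq
      have h4 : red p π * red p π ∣ q :=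
        ((Polynomial.isUnit_C.2 (isUnit_iff_ne_zero.2 hc)).dvd_mul_left).1 h3
      exact hρ.not_isUnit (hq _ h4)

end Pool.Agent.L7h53.TN
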